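import Mathlib
import Pool.Agent.H69.At3

set_option autoImplicit false

namespace Pool.Agent.Results.MP_df2971_lc.No

open Pool.Agent.H69.At

theorem result : ∃ X : Set ℤ, Recog 2 X ∧ ¬ Stable X ∧
    (¬ ∀ (n : ℕ) (s : Set (Fin n → ℤ)), Def1 X s ↔ Def2 2 s) ∧
    ¬ Def1 X {v : Fin 2 → ℤ | v 1 = V 2 (v 0)} :=
  ⟨X0, recog, not_stable, not_same, not_V⟩

end Pool.Agent.Results.MP_df2971_lc.No
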